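import Mathlib

/-!
# Counting functions which are regular on dyadic blocks
-/

set_option autoImplicit false

namespace Pool.Agent.V5helper69.EHS

open Finset Filter
open scoped Topology

/-- `x / log x` -/
noncomputable def G (x : ℕ) : ℝ := (x : ℝ) / Real.log x

lemma G_nonneg (x : ℕ) : 0 ≤ G x := div_nonneg (Nat.cast_nonneg x) (Real.log_natCast_nonneg x)

lemma ev_log (K : ℝ) : ∀ᶠ x : ℕ in atTop, K ≤ Real.log x :=
  (Real.tendsto_log_atTop.comp tendsto_natCast_atTop_atTop).eventually_ge_atTop K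

lemma aux (x : ℕ) (hx : 4 ≤ Real.log x) :
    (x + 1) / 2 + x / 2 = x ∧ x / 2 ≤ (x + 1) / 2 ∧ (x + 1) / 2 < x ∧
      Real.log x - 1 ≤ Real.log (((x + 1) / 2 : ℕ) : ℝ) ∧
      Real.log (((x + 1) / 2 : ℕ) : ℝ) ≤ Real.log x ∧ G ((x + 1) / 2) ≤ 3 / 4 * G x := by
  have hx5 : 5 ≤ x := by
    by_contra h
    have h1 : x ≤ 4 := by omega
    have h2 : (x : ℝ) ≤ 4 := by exact_mod_cast h1
    rcases Nat.eq_zero_or_pos x with h0 | h0
    · rw [h0, Nat.cast_zero, Real.log_zero] at hx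
      norm_num at hx
    · have h3 : (0 : ℝ) < x := by exact_mod_cast h0
      have h4 := Real.log_le_sub_one_of_pos h3
      linarith
  have hxR : (5 : ℝ) ≤ x := by exact_mod_cast hx5
  have hx0 : (0 : ℝ) < x := by linarith
  have e1 : (x + 1) / 2 + x / 2 = x := by omega
  have e2 : (x + 1) / 2 < x := by omega
  have e3 : x ≤ 2 * ((x + 1) / 2) := by omega
  have e4 : 2 * ((x + 1) / 2) ≤ x + 1 := by omega
  obtain ⟨m, hm⟩ : ∃ m : ℕ, m = (x + 1) / 2 := ⟨_, rfl⟩
  rw [← hm] at e1 e2 e3 e4 ⊢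
  have r3 : (x : ℝ) ≤ 2 * (m : ℝ) := by exact_mod_cast e3
  have r4 : 2 * (m : ℝ) ≤ x + 1 := by exact_mod_cast e4
  have hm0 : (0 : ℝ) < m := by linarith
  have l1 : Real.log x - Real.log 2 ≤ Real.log m := by
    rw [← Real.log_div hx0.ne' two_ne_zero]
    exact Real.log_le_log (by linarith) (by linarith)
  have l2 : Real.log m ≤ Real.log x := Real.log_le_log hm0 (by exact_mod_cast e2.le)
  have l3 : Real.log 2 < 0.7 := by
    have := Real.log_two_lt_d9
    linarith
  refine ⟨e1, by omega, e2, by linarith, l2, ?_⟩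
  unfold G
  have hLm : 0 < Real.log m := by linarith
  have hLx : 0 < Real.log x := by linarith
  rw [div_le_iff₀ hLm]
  have h5 : 3 / 4 * ((x : ℝ) / Real.log x) * Real.log m = (3 / 4 * x * Real.log m) / Real.log x := by
    ring
  rw [h5, le_div_iff₀ hLx]
  have h6 : (m : ℝ) * Real.log x ≤ (x + 1) / 2 * Real.log x :=
    mul_le_mul_of_nonneg_right (by linarith) hLx.le
  have h7 : 3 / 4 * x * (Real.log x - 0.7) ≤ 3 / 4 * x * Real.log m :=
    mul_le_mul_of_nonneg_left (by linarith) (by linarith)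
  have h8 : 4 * ((x : ℝ) - 2) ≤ Real.log x * (x - 2) :=
    mul_le_mul_of_nonneg_right hx (by linarith)
  nlinarith [h6, h7, h8]

lemma rec_bound (E : ℕ → ℝ) (hE : ∀ x, 0 ≤ E x) (ε : ℝ) (hε : 0 < ε) (x0 : ℕ)
    (h : ∀ x, x0 ≤ x → E x ≤ E ((x + 1) / 2) + ε * G x ∧ G ((x + 1) / 2) ≤ 3 / 4 * G x ∧
      (x + 1) / 2 < x) : ∀ x, E x ≤ 4 * ε * G x + ∑ z ∈ range x0, E z := by
  intro x
  induction x using Nat.strong_induction_on with
  | _ x ih =>
    by_cases hx : x0 ≤ x
    · obtain ⟨h1, h2, h3⟩ := h x hx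
      have h4 := ih _ h3
      have h5 := mul_le_mul_of_nonneg_left h2 (by linarith : (0 : ℝ) ≤ 4 * ε)
      linarith
    · have h1 : E x ≤ ∑ z ∈ range x0, E z :=
        single_le_sum (f := E) (fun z _ => hE z) (mem_range.2 (not_le.1 hx))
      have h2 := mul_nonneg (by linarith : (0 : ℝ) ≤ 4 * ε) (G_nonneg x)
      linarith

lemma ev_G (K : ℝ) (hK : 0 < K) : ∀ᶠ x : ℕ in atTop, K ≤ G x := by
  have h1 := (Real.isLittleO_log_id_atTop.comp_tendsto tendsto_natCast_atTop_atTop).def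
    (show (0 : ℝ) < K⁻¹ from inv_pos.2 hK)
  filter_upwards [h1, ev_log 1] with x hx hx1
  simp only [Function.comp_apply, id_eq, Real.norm_eq_abs] at hx
  rw [abs_of_nonneg (by linarith), abs_of_nonneg (Nat.cast_nonneg x)] at hx
  unfold G
  rw [le_div_iff₀ (by linarith)]
  calc K * Real.log x ≤ K * (K⁻¹ * x) := mul_le_mul_of_nonneg_left hx hK.le
    _ = x := by rw [← mul_assoc, mul_inv_cancel₀ hK.ne', one_mul]

theorem dens (M : ℕ → ℝ) (h : ∀ ε : ℝ, 0 < ε → ∀ᶠ x : ℕ in atTop,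
    |M x - M ((x + 1) / 2) - ((x / 2 : ℕ) : ℝ) / Real.log (((x + 1) / 2 : ℕ) : ℝ)| ≤
      ε * (((x / 2 : ℕ) : ℝ) / Real.log (((x + 1) / 2 : ℕ) : ℝ))) :
    Tendsto (fun x : ℕ => M x * Real.log x / x) atTop (𝓝 1) := by
  rw [Metric.tendsto_atTop']
  intro δ hδ
  obtain ⟨ε, hε⟩ : ∃ ε : ℝ, ε = δ / 6 := ⟨_, rfl⟩
  have hε0 : 0 < ε := by rw [hε]; positivity
  have h1 : ∀ᶠ x : ℕ in atTop, |M x - G x| ≤ |M ((x + 1) / 2) - G ((x + 1) / 2)| + ε * G x ∧
      G ((x + 1) / 2) ≤ 3 / 4 * G x ∧ (x + 1) / 2 < x := by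
    filter_upwards [h (ε / 3) (by positivity), ev_log 4, ev_log (1 + 2 / ε)] with x h1 h2 h3
    obtain ⟨a1, a2, a3, a4, a5, a6⟩ := aux x h2
    refine ⟨?_, a6, a3⟩
    have hG := G_nonneg x
    generalize (x + 1) / 2 = m at h1 a1 a2 a3 a4 a5 a6 ⊢
    generalize x / 2 = y at h1 a1 a2
    have hLm : 2 / ε ≤ Real.log m := by linarith
    have hLm0 : 0 < Real.log m := lt_of_lt_of_le (by positivity) hLm
    have hLx0 : 0 < Real.log x := by linarith
    have b1 : (y : ℝ) / Real.log m ≤ 3 / 4 * G x := by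
      refine le_trans ?_ a6
      unfold G
      exact div_le_div_of_nonneg_right (by exact_mod_cast a2) hLm0.le
    have b2 : (y : ℝ) / Real.log m - (G x - G m) = G x * ((Real.log x - Real.log m) / Real.log m) := by
      unfold G
      have e1 : (x : ℝ) = m + y := by exact_mod_cast a1.symm
      have e2 : (y : ℝ) = x - m := by linarith
      rw [e2]
      field_simp
      ring
    have b3 : (Real.log x - Real.log m) / Real.log m ≤ ε / 2 := by
      rw [div_le_iff₀ hLm0]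
      have : ε / 2 * (2 / ε) ≤ ε / 2 * Real.log m := mul_le_mul_of_nonneg_left hLm (by positivity)
      have e3 : ε / 2 * (2 / ε) = 1 := by field_simp
      linarith
    have b4 : 0 ≤ (Real.log x - Real.log m) / Real.log m := div_nonneg (by linarith) hLm0.le
    have b5 : |(y : ℝ) / Real.log m - (G x - G m)| ≤ ε / 2 * G x := by
      rw [b2, abs_of_nonneg (mul_nonneg hG b4), mul_comm]
      exact mul_le_mul_of_nonneg_right b3 hG
    have b6 : ε / 3 * ((y : ℝ) / Real.log m) ≤ ε / 4 * G x := by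
      have := mul_le_mul_of_nonneg_left b1 (by positivity : (0 : ℝ) ≤ ε / 3)
      linarith
    have b7 : M x - G x = (M m - G m) + (M x - M m - y / Real.log m) +
        (y / Real.log m - (G x - G m)) := by ring
    rw [b7]
    have b8 := abs_add_le ((M m - G m) + (M x - M m - y / Real.log m))
      (y / Real.log m - (G x - G m))
    have b9 := abs_add_le (M m - G m) (M x - M m - y / Real.log m)
    have b10 : 0 ≤ ε * G x := mul_nonneg hε0.le hG
    linarith
  obtain ⟨x0, hx0⟩ := eventually_atTop.1 h1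
  have h2 := rec_bound (fun x => |M x - G x|) (fun x => abs_nonneg _) ε hε0 x0 hx0
  obtain ⟨C, hC⟩ : ∃ C : ℝ, C = ∑ z ∈ range x0, |M z - G z| := ⟨_, rfl⟩
  have hC0 : 0 ≤ C := by rw [hC]; exact sum_nonneg fun z _ => abs_nonneg _
  have h3 : ∀ᶠ x : ℕ in atTop, dist (M x * Real.log x / x) 1 < δ := by
    filter_upwards [ev_G ((C + 1) / ε) (by positivity), ev_log 4, eventually_gt_atTop 0]
      with x g1 g2 g3
    have hx0' : (0 : ℝ) < x := by exact_mod_cast g3
    have hL : 0 < Real.log x := by linarith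
    have hG : 0 < G x := div_pos hx0' hL
    have h4 : |M x - G x| ≤ 4 * ε * G x + C := by
      rw [hC]
      exact h2 x
    have h5 : C ≤ ε * G x := by
      have := mul_le_mul_of_nonneg_left g1 hε0.le
      have e1 : ε * ((C + 1) / ε) = C + 1 := by field_simp
      linarith
    have h6 : M x * Real.log x / x - 1 = (M x - G x) / G x := by
      unfold G
      field_simp
    rw [Real.dist_eq, h6, abs_div, abs_of_pos hG, div_lt_iff₀ hG]
    have h7 : 0 < ε * G x := mul_pos hε0 hG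
    have h8 : δ = 6 * ε := by rw [hε]; ring
    rw [h8]
    linarith
  obtain ⟨N, hN⟩ := eventually_atTop.1 h3
  exact ⟨N, fun n hn => hN n hn.le⟩

end Pool.Agent.V5helper69.EHS
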