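import Pool.Agent.V5helper33.EHS.Stm2
import Pool.Agent.V5helper69.EHS.DENL

/-!
# Project EHS, job DEN: the counting function of the random model
-/

set_option autoImplicit false

namespace Pool.Agent.V5helper69.EHS

open Finset MeasureTheory ProbabilityTheory Filter
open scoped ENNReal Topology
open Pool.Agent.W41 (V V_pos)
open Pool.Agent.V5helper42.RS (W model TT FL)
open Pool.Agent.V5helper33.EHS

lemma exists_FL (ε : ℝ) (hε : 0 < ε) : ∃ K, FL ε K := by
  obtain ⟨C0, M, hC0, hM, hF⟩ := Pool.Agent.V5helper42.RS.fundR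
  obtain ⟨k, hk⟩ := exists_pow_lt_of_lt_one (show (0 : ℝ) < ε / 2 by positivity)
    (show (1 / 2 : ℝ) < 1 by norm_num)
  obtain ⟨n, hn⟩ : ∃ n : ℕ, n = max (max C0 (2 * M)) k := ⟨_, rfl⟩
  have h1 : C0 ≤ n := by rw [hn]; exact (le_max_left _ _).trans (le_max_left _ _)
  have h2 : 2 * M ≤ n := by rw [hn]; exact (le_max_right _ _).trans (le_max_left _ _)
  have h3 : k ≤ n := by rw [hn]; exact le_max_right _ _
  obtain ⟨y0, hy2, hy0⟩ := hF n h1 h2
  refine ⟨4 * (C0 * n) + 5, y0, hy2, fun y hy X hX P hP ρ hρ =>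
    (hy0 y hy X hX P hP ρ hρ).trans ?_⟩
  have hV : 0 ≤ V P := (V_pos fun p hp => (hP p hp).1).le
  refine mul_le_mul_of_nonneg_right ?_ (mul_nonneg (Nat.cast_nonneg X) hV)
  have hn0 : (0 : ℝ) < n := by
    have : 0 < n := by omega
    exact_mod_cast this
  have h4 : (M : ℝ) / n ≤ 1 / 2 := by
    rw [div_le_div_iff₀ hn0 (by norm_num)]
    have : 2 * (M : ℝ) ≤ n := by exact_mod_cast h2
    linarith
  have h5 : ((M : ℝ) / n) ^ n ≤ (1 / 2) ^ n := pow_le_pow_left₀ (by positivity) h4 n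
  have h6 : (1 / 2 : ℝ) ^ n ≤ (1 / 2) ^ k := pow_le_pow_of_le_one (by norm_num) (by norm_num) h3
  linarith

open Classical in
lemma NB_split (a : ℕ → ℕ) (m y : ℕ) : NB a 0 (m + y) 1 0 =
    NB a 0 m 1 0 + ((Ioc m (m + y)).filter (fun n => n ∈ model a)).card := by
  unfold NB
  rw [zero_add, zero_add, ← Ioc_union_Ioc_eq_Ioc (Nat.zero_le m) (Nat.le_add_right m y),
    filter_union, card_union_of_disjoint]
  · congr 1
    congr 1
    ext n
    simp only [mem_filter, Nat.mod_one, true_and]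
  · refine disjoint_filter_filter ?_
    rw [Finset.disjoint_left]
    intro n h1 h2
    rw [mem_Ioc] at h1 h2
    omega

lemma ev_pow (B : ℕ) : ∀ᶠ x : ℕ in atTop, (Real.log x) ^ B ≤ x / 4 := by
  have h1 := ((Real.isLittleO_pow_log_id_atTop (n := B)).comp_tendsto
    tendsto_natCast_atTop_atTop).def (show (0 : ℝ) < 1 / 4 by norm_num)
  filter_upwards [h1] with x hx
  simp only [Function.comp_apply, id_eq, Real.norm_eq_abs] at hx
  rw [abs_of_nonneg (pow_nonneg (Real.log_natCast_nonneg x) B),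
    abs_of_nonneg (Nat.cast_nonneg x)] at hx
  linarith

theorem t_DEN : S_DEN := by
  classical
  intro Ω _ μ _ a ha
  have hFL : ∀ n : ℕ, ∃ K, FL (1 / (4 * ((n : ℝ) + 1))) K := fun n => exists_FL _ (by positivity)
  choose K hK using hFL
  have h1 : ∀ᵐ ω ∂μ, ∀ n : ℕ, ∀ᶠ m : ℕ in atTop, ∀ y : ℕ,
      (Real.log m) ^ (5 * K n + 7) ≤ (y : ℝ) → y ≤ m →
      |(((Ioc m (m + y)).filter (fun n => n ∈ model (fun q => a q ω))).card : ℝ) -
        y / Real.log m| ≤ 4 * (1 / (4 * ((n : ℝ) + 1))) * (y / Real.log m) := by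
    rw [ae_all_iff]
    intro n
    refine Pool.Agent.V5helper42.RS.ae_regular μ a ha.meas ha.indep ha.unif _ (by positivity) ?_
      (K n) (hK n)
    rw [div_le_div_iff₀ (by positivity) (by norm_num)]
    have : (0 : ℝ) ≤ n := Nat.cast_nonneg n
    linarith
  filter_upwards [h1] with ω hω
  refine dens (fun x => (NB (fun p => a p ω) 0 x 1 0 : ℝ)) fun ε hε => ?_
  obtain ⟨n, hn⟩ := exists_nat_one_div_lt hε
  have hT : Tendsto (fun x : ℕ => (x + 1) / 2) atTop atTop := by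
    refine tendsto_atTop.2 fun b => ?_
    filter_upwards [eventually_ge_atTop (2 * b)] with x hx
    omega
  filter_upwards [hT.eventually (hω n), ev_pow (5 * K n + 7), ev_log 4, eventually_ge_atTop 2]
    with x h2 h3 h4 h5
  obtain ⟨a1, a2, a3, a4, a5, a6⟩ := aux x h4
  have h6 : (x : ℝ) / 4 ≤ ((x / 2 : ℕ) : ℝ) := by
    have h7 : x ≤ 4 * (x / 2) := by omega
    have h8 : (x : ℝ) ≤ 4 * ((x / 2 : ℕ) : ℝ) := by exact_mod_cast h7
    linarith
  have h7 : (Real.log (((x + 1) / 2 : ℕ) : ℝ)) ^ (5 * K n + 7) ≤ ((x / 2 : ℕ) : ℝ) :=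
    ((pow_le_pow_left₀ (Real.log_natCast_nonneg _) a5 _).trans h3).trans h6
  have h8 := h2 (x / 2) h7 a2
  have h9 : (NB (fun p => a p ω) 0 x 1 0 : ℝ) - (NB (fun p => a p ω) 0 ((x + 1) / 2) 1 0 : ℝ) =
      (((Ioc ((x + 1) / 2) ((x + 1) / 2 + x / 2)).filter
        (fun n => n ∈ model (fun q => a q ω))).card : ℝ) := by
    have h10 := NB_split (fun p => a p ω) ((x + 1) / 2) (x / 2)
    have h11 : NB (fun p => a p ω) 0 x 1 0 = NB (fun p => a p ω) 0 ((x + 1) / 2 + x / 2) 1 0 := by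
      rw [a1]
    rw [h11, h10]
    push_cast
    ring
  rw [h9]
  refine h8.trans (mul_le_mul_of_nonneg_right ?_ ?_)
  · have e1 : 4 * (1 / (4 * ((n : ℝ) + 1))) = 1 / ((n : ℝ) + 1) := by
      field_simp
    rw [e1]
    exact hn.le
  · exact div_nonneg (Nat.cast_nonneg _) (Real.log_natCast_nonneg _)

end Pool.Agent.V5helper69.EHS
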